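import Pool.Agent.W169.HF.AsmD

/-!
# The Grand Lindelöf Hypothesis for `GL(m)` and the zeros of the heat flow

`π` runs through the L-functions of cuspidal automorphic representations of `GL_m(𝔸_ℚ)` (`CuspidalL m`);
`C_π = N ∏ (1 + |μ_j|)` is the analytic conductor, `C_π(t) = N ∏ (1 + |i t - μ_j|)` the analytic conductor
at the height `t`, `ξ_π(s) = N^(s/2) Λ(s, π)` and `ξ_τ = e^{τ D²} ξ_π` (`D = d/ds`) its heat flow.  By
de Bruijn's theorem the zeros of `ξ_τ` move to the critical line as `τ` grows.  Let `P` be any set of `π`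
(for example all of them).

`FewZeros P κ` says: for all `τ` with `κ ≤ τ log C_π(y) ≤ X` the number of zeros of `ξ_τ` at distance at
least `δ` from the critical line and with `|Im z - y| ≤ 1` is `o(log C_π(y))`, uniformly in `π ∈ P` and
`y`, as `C_π(y) → ∞` (it suffices to count the zeros on the right of the line, because the zeros are
symmetric).

Theorem.  (1) The Grand Lindelöf Hypothesis holds for `P` if and only if `FewZeros P κ` holds for every
`κ > 0`.  (2) For every `κ > 0`, `FewZeros P κ` holds if and only if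
`L(1/2 + r + i t, π) ≪ C_π(t)^(μ(r) + ε)`, `μ(r) = max(κ - r, 0)² / (4 κ)`, for all `0 ≤ r ≤ 1/2`,
uniformly in `π ∈ P` and `t`.  (3) `FewZeros P 1` holds (unconditionally).

So for each `κ < 1` the condition `FewZeros P κ` is a uniform subconvex bound with the explicit exponent
`κ / 4` on the critical line, and conversely.  This is the analogue for all standard L-functions, uniform
in the conductor, of the theorem of helper186 on `ζ` (`MP_4e5e8a_nt.HeatFlowZeroCount`); for `ζ` the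
relation between the Lindelöf hypothesis and the zeros of `ζ` itself is due to Backlund.

Proof (modules `Pool.Agent.W169.HF`): Gaussian integrals relate `log |ξ_τ|` and `log |ξ_π|` on vertical
lines in both directions (heat flow along horizontal lines, inverse heat flow along vertical lines);
Jensen's inequality and the three circles theorem with few zeros relate the size and the zeros of `ξ_τ`.
The gamma factors are removed with bounds uniform in the parameters.  Project of helper169; parts by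
helpers 45, 160, 186, 193, 251, 320, 327, 351, 363, 366, 397, 565, 583, 736, 948.
-/

set_option autoImplicit false

open Complex
open scoped ComplexConjugate

namespace Pool.Agent.Results.MP_52e316_nt.HeatFlowZeroCount

/-- Analytic data of a cuspidal automorphic representation of `GL_m(𝔸_ℚ)` (not the trivial one for
`m = 1`), normalised as in the problem: conductor `N`, archimedean parameters `μ_j` with `Re μ_j ≤ 1/2` and
`∑ Im μ_j = 0` (the central character is trivial on the positive reals), Satake parameters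
`|α_j(p)| ≤ √p`, root number `ε`, and the entire completed L-function `Λ` (gamma factors times Euler product
for `Re s > 3/2`) with the functional equation, finite order in vertical strips and no zeros in
`Re s > 1` (all known: Godement-Jacquet, Jacquet-Shalika). -/
structure CuspidalL (m : ℕ) where
  /-- the conductor -/
  N : ℝ
  /-- the archimedean parameters -/
  μ : Fin m → ℂ
  /-- the Satake parameters -/
  α : Fin m → ℕ → ℂ
  /-- the root number -/
  ε : ℂ
  /-- the completed L-function -/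
  Λ : ℂ → ℂ
  one_le : 1 ≤ N
  re_le : ∀ j, (μ j).re ≤ 1 / 2
  normalised : ∑ j, (μ j).im = 0
  norm_le : ∀ j, ∀ p : ℕ, p.Prime → ‖α j p‖ ≤ Real.sqrt p
  norm_eq : ‖ε‖ = 1
  entire : Differentiable ℂ Λ
  euler : ∀ s : ℂ, 3 / 2 < s.re → Λ s = (∏ j, Gammaℝ (s - μ j)) *
    ∏' p : Nat.Primes, ∏ j, (1 - α j p * (p : ℂ) ^ (-s))⁻¹
  fe : ∀ s : ℂ, Λ s = ε * (N : ℂ) ^ (1 / 2 - s) * conj (Λ (1 - conj s))
  bdd : ∀ a b : ℝ, ∃ M, ∀ s : ℂ, a ≤ s.re → s.re ≤ b → ‖Λ s‖ ≤ Real.exp (M * (1 + |s.im|))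
  ne_zero : ∀ s : ℂ, 1 < s.re → Λ s ≠ 0

variable {m : ℕ}

/-- The L-function `L(s, π) = Λ(s, π) / ∏ Γ_ℝ(s - μ_j)`. -/
noncomputable def L (π : CuspidalL m) (s : ℂ) : ℂ := π.Λ s * ∏ j, (Gammaℝ (s - π.μ j))⁻¹

/-- The analytic conductor `C_π = N ∏ (1 + |μ_j|)`. -/
noncomputable def C (π : CuspidalL m) : ℝ := π.N * ∏ j, (1 + ‖π.μ j‖)

/-- The analytic conductor at the height `t`: `C_π(t) = N ∏ (1 + |i t - μ_j|)`. -/
noncomputable def Ct (π : CuspidalL m) (t : ℝ) : ℝ := π.N * ∏ j, (1 + ‖(t : ℂ) * I - π.μ j‖)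

/-- `ξ_π(s) = N^(s/2) Λ(s, π)`. -/
noncomputable def xi (π : CuspidalL m) (s : ℂ) : ℂ := (π.N : ℂ) ^ (s / 2) * π.Λ s

/-- The heat flow `e^{τ D²} F` (`D = d/ds`) as a Gaussian average:
`π^(-1/2) ∫ exp (-v²) F(s + 2 √τ v) dv`. -/
noncomputable def heat (τ : ℝ) (F : ℂ → ℂ) (s : ℂ) : ℂ :=
  ((1 / Real.sqrt Real.pi : ℝ) : ℂ) *
    ∫ v : ℝ, ((Real.exp (-v ^ 2) : ℝ) : ℂ) * F (s + ((2 * Real.sqrt τ * v : ℝ) : ℂ))

/-- The Grand Lindelöf Hypothesis for the `π` in `P`. -/
def GLH (P : CuspidalL m → Prop) : Prop :=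
  ∀ ε : ℝ, 0 < ε → ∃ B : ℝ, ∀ π : CuspidalL m, P π → ∀ t : ℝ,
    ‖L π (1 / 2 + (t : ℂ) * I)‖ ≤ B * ((1 + |t|) * C π) ^ ε

/-- `L(1/2 + r + i t, π) ≪ C_π(t)^(a + ε)` for every `ε > 0`, uniformly in `π ∈ P` and `t`. -/
def Size (P : CuspidalL m → Prop) (r a : ℝ) : Prop :=
  ∀ ε : ℝ, 0 < ε → ∃ B : ℝ, ∀ π : CuspidalL m, P π → ∀ t : ℝ,
    ‖L π (1 / 2 + (r : ℂ) + (t : ℂ) * I)‖ ≤ B * Ct π t ^ (a + ε)

/-- For all positive `δ`, `ε`, all `X`, and `C_π(y)` large: if `κ ≤ τ log C_π(y) ≤ X`, then any finitely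
many zeros `z` of the heat flow `e^{τ D²} ξ_π` with `|Im z - y| ≤ 1` and `Re z ≥ 1/2 + δ` have total
multiplicity at most `ε log C_π(y)`. -/
def FewZeros (P : CuspidalL m → Prop) (κ : ℝ) : Prop :=
  ∀ δ ε X : ℝ, 0 < δ → 0 < ε → ∃ C₀ : ℝ, ∀ π : CuspidalL m, P π → ∀ τ y : ℝ, 0 < τ → C₀ ≤ Ct π y →
    κ ≤ τ * Real.log (Ct π y) → τ * Real.log (Ct π y) ≤ X → ∀ S : Finset ℂ,
    (∀ z ∈ S, heat τ (xi π) z = 0 ∧ 1 / 2 + δ ≤ z.re ∧ |z.im - y| ≤ 1) →
    ∑ z ∈ S, (analyticOrderNatAt (heat τ (xi π)) z : ℝ) ≤ ε * Real.log (Ct π y)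

open Pool.Agent.W169.HF

lemma std (π : CuspidalL m) : Std π.N π.μ π.α π.ε π.Λ :=
  ⟨{ one_le := π.one_le
     re_le := π.re_le
     norm_le := fun j p hp => by
       rw [← Real.sqrt_eq_rpow]
       exact π.norm_le j p hp
     norm_eq := π.norm_eq
     entire := π.entire
     euler := fun s hs => π.euler s (by linarith)
     fe := π.fe
     bdd := π.bdd }, π.ne_zero⟩

/-- the class of tuples -/
def cls (P : CuspidalL m → Prop) : Cls m := fun N μ α e Λ =>
  ∃ π : CuspidalL m, P π ∧ π.N = N ∧ π.μ = μ ∧ π.α = α ∧ π.ε = e ∧ π.Λ = Λ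

lemma rpow_exp {x : ℝ} (hx : 1 ≤ x) (a : ℝ) : x ^ a = Real.exp (a * Real.log x) := by
  rw [Real.rpow_def_of_pos (by linarith), mul_comm]

lemma C_one (π : CuspidalL m) (t : ℝ) : 1 ≤ (1 + |t|) * C π := by
  have h1 : 1 ≤ ∏ j, (1 + ‖π.μ j‖) := by
    refine Finset.prod_induction _ (fun x => (1 : ℝ) ≤ x) (fun a b ha hb => ?_) le_rfl fun j _ => ?_
    · nlinarith
    · linarith [norm_nonneg (π.μ j)]
  have h2 : 1 ≤ C π := by
    unfold C
    have := π.one_le
    nlinarith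
  have := abs_nonneg t
  nlinarith

lemma size_iff (P : CuspidalL m → Prop) (r a : ℝ) : Size P r a ↔ SEr (cls P) r a := by
  constructor
  · intro h ε hε
    obtain ⟨B, HB⟩ := h ε hε
    refine ⟨Real.log (max B 1), ?_⟩
    rintro N μ α e Λ ⟨π, hP, rfl, rfl, rfl, rfl, rfl⟩ _ y
    have hB : 0 < max B 1 := lt_max_of_lt_right one_pos
    refine (HB π hP y).trans ?_
    have h1 : 1 ≤ cnd π.N π.μ y := cnd_pos π.one_le π.μ y
    change B * cnd π.N π.μ y ^ (a + ε) ≤ _
    rw [rpow_exp h1, Real.exp_add, Real.exp_log hB]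
    exact mul_le_mul_of_nonneg_right (le_max_left _ _) (Real.exp_pos _).le
  · intro h ε hε
    obtain ⟨B, HB⟩ := h ε hε
    refine ⟨Real.exp B, fun π hP t => ?_⟩
    have h2 := HB π.N π.μ π.α π.ε π.Λ ⟨π, hP, rfl, rfl, rfl, rfl, rfl⟩ (std π) t
    have h1 : 1 ≤ cnd π.N π.μ t := cnd_pos π.one_le π.μ t
    change _ ≤ Real.exp B * cnd π.N π.μ t ^ (a + ε)
    rw [rpow_exp h1, ← Real.exp_add]
    exact h2

lemma few_iff (P : CuspidalL m → Prop) (κ : ℝ) : FewZeros P κ ↔ FZ (cls P) κ := by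
  constructor
  · intro h δ ε X hδ hε
    obtain ⟨C0, H⟩ := h δ ε X hδ hε
    refine ⟨C0, ?_⟩
    rintro N μ α e Λ ⟨π, hP, rfl, rfl, rfl, rfl, rfl⟩ _ t y ht hC h1 h2 S hS
    exact H π hP t y ht hC h1 h2 S hS
  · intro h δ ε X hδ hε
    obtain ⟨C0, H⟩ := h δ ε X hδ hε
    refine ⟨C0, fun π hP t y ht hC h1 h2 S hS => ?_⟩
    exact H π.N π.μ π.α π.ε π.Λ ⟨π, hP, rfl, rfl, rfl, rfl, rfl⟩ (std π) t y ht hC h1 h2 S hS

lemma glh_to (hm : 1 ≤ m) (P : CuspidalL m → Prop) : GLH P ↔ SE (cls P) 0 := by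
  have hm' : (1 : ℝ) ≤ m := by exact_mod_cast hm
  constructor
  · intro h ε hε
    obtain ⟨B, HB⟩ := h (ε / (m + 2)) (by positivity)
    refine ⟨Real.log (max B 1), ?_⟩
    rintro N μ α e Λ ⟨π, hP, rfl, rfl, rfl, rfl, rfl⟩ _ y
    have hB : 0 < max B 1 := lt_max_of_lt_right one_pos
    refine (HB π hP y).trans ?_
    rw [rpow_exp (C_one π y), Real.exp_add, Real.exp_log hB]
    refine mul_le_mul (le_max_left _ _) (Real.exp_le_exp.2 ?_) (Real.exp_pos _).le hB.le
    have h1 := (cnd_norm π.one_le π.μ hm π.normalised y).1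
    change Real.log ((1 + |y|) * C π) ≤ _ at h1
    rw [div_mul_eq_mul_div, div_le_iff₀ (by positivity), zero_add]
    have h2 := mul_le_mul_of_nonneg_left h1 hε.le
    linarith
  · intro h ε hε
    obtain ⟨B, HB⟩ := h (ε / m) (by positivity)
    refine ⟨Real.exp B, fun π hP t => ?_⟩
    have h2 := HB π.N π.μ π.α π.ε π.Λ ⟨π, hP, rfl, rfl, rfl, rfl, rfl⟩ (std π) t
    refine h2.trans ?_
    rw [rpow_exp (C_one π t), ← Real.exp_add]
    apply Real.exp_le_exp.2
    have h1 := (cnd_norm π.one_le π.μ hm π.normalised t).2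
    change _ ≤ (m : ℝ) * Real.log ((1 + |t|) * C π) at h1
    have h3 : (0 + ε / m) * Real.log (cnd π.N π.μ t) ≤ ε * Real.log ((1 + |t|) * C π) := by
      rw [zero_add, div_mul_eq_mul_div, div_le_iff₀ (by positivity)]
      have h4 := mul_le_mul_of_nonneg_left h1 hε.le
      linarith
    linarith

/-- **Main theorem.** Let `m ≥ 1` and let `P` be a set of `π`.  (1) GLH for `P` is equivalent to
`FewZeros P κ` for all `κ > 0`; (2) for every `κ > 0`, `FewZeros P κ` is equivalent to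
`L(1/2 + r + i t, π) ≪ C_π(t)^(max(κ - r, 0)² / (4 κ) + ε)` for all `0 ≤ r ≤ 1/2`; (3) `FewZeros P 1`
holds. -/
theorem result (hm : 1 ≤ m) (P : CuspidalL m → Prop) :
    (GLH P ↔ ∀ κ : ℝ, 0 < κ → FewZeros P κ) ∧
    (∀ κ : ℝ, 0 < κ → (FewZeros P κ ↔
      ∀ r : ℝ, 0 ≤ r → r ≤ 1 / 2 → Size P r (max (κ - r) 0 ^ 2 / (4 * κ)))) ∧
    FewZeros P 1 := by
  refine ⟨?_, fun κ hκ => ?_, ?_⟩
  · rw [glh_to hm, glh_iff hpx_all jen_all net_all tcz_all invx_all hm]
    simp only [few_iff]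
  · rw [few_iff, fz_iff hpx_all jen_all net_all tcz_all invx_all hm hκ]
    simp only [size_iff]
  · rw [few_iff]
    exact fz_one hpx_all jen_all net_all hm

end Pool.Agent.Results.MP_52e316_nt.HeatFlowZeroCount
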