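import Mathlib
import Pool.Agent.H983R4.GL.F3
import Pool.Agent.H855R2.SF.Dir
import Pool.Agent.W587.PL.G

/-!
# Large values of L-functions of `GL(m)` produce long plateaus; a sampling criterion for Lindelöf

Let `π` run through (a family of) cuspidal representations of `GL(m)`, normalised as in the problem, let
`X = (1 + |T|) C_π` and let `Q = N ∏ (1 + |μ_j - iT|)` be the analytic conductor at height `T`, so that
`2π / log Q` is the mean spacing of the zeros of `L(s, π)` near height `T`.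

**Plateaus.** Let `V = |L(1/2 + iT, π)| ≥ 1`.  Then there is `T₀` at bounded distance from `T` such that
`|L(1/2 + it, π)| ≥ X^(-ε) V` in the whole interval `|t - T₀| ≤ π / (log Q - 4 log V + ε log X)`.  So, if
`log X = O(log Q)`, a value `Q^κ` forces an interval of length `(1/(1 - 4κ) - ε)` times the mean spacing of the
zeros without a zero on the critical line, and with all values `≥ X^(-ε) Q^κ`.

**Sampling.** If every interval of `θ` times the mean spacing of the zeros, `|t - T| ≤ π θ / log Q`, contains a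
point of the critical line at which `|L| ≤ X^(κ + ε)` (for instance a zero), then
`L(1/2 + iT, π) = O(X^ε max(X^κ, Q^((1 - 1/θ)/4)))`.  For `θ ≤ 1` the exponent of the family is `κ`: the Grand
Lindelöf Hypothesis for the family is equivalent to the existence of a value `≤ X^ε` in every interval whose
length is the mean spacing of the zeros.

**Optimality.** In the class of the data considered (see `Datum.Ok`, `Molteni`) all the constants are best
possible: for `0 ≤ κ < 1/4` there are data of degree `0` and conductor `N = 2, 3, ...` with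
`|f(1/2)| = 2 N^κ = max |f(1/2 + it)|` such that the zeros of `f(1/2 + it)` are the points
`(2k + 1) π / ((1 - 4κ) log N)`.

The theorem uses only classical facts: the functional equation, `Re μ_j < 1/2`, finite order, and Molteni's
bound `L(σ + it, π) = O(C_π^ε)` in `σ ≥ 1 + ε`.  For primitive Dirichlet characters of modulus `q > 1`
(`m = 1`) all of them are proved and the result holds with `X = Q = q (1 + |T|)`.

Proof.  By the functional equation and the three lines theorem `L(1/2 + iT₀ + z)`, multiplied by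
`Q^(z/2) X^(c z^2)`, is at most `M exp(τ |Re z|)` near `z = 0`, where `T₀` is (nearly) the place of a maximum
`M ≥ V` on the critical line and `2 τ = log Q - 4 log V + O(ε log X)`.  By a local form of the sampling
inequality of Duffin and Schaeffer for functions of exponential type `τ`, obtained by integrating over a large
circle against `1 / (z cos z)`, a function with this property cannot be small at distance less than
`π / (2 τ)` from a maximum.
-/

set_option autoImplicit false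

open Filter Topology MeasureTheory Real Set

namespace Pool.Agent.Results.MP_52e316_nt.LargeValuePlateaus

/-- The data of a standard L-function of `GL(m)`: the conductor `N`, the archimedean parameters `mu j` (the
factor at infinity is `∏ j, Γ_ℝ (s - mu j)`) and the L-function `f` (continued to the complex plane). -/
structure Datum (m : ℕ) where
  N : ℕ
  mu : Fin m → ℂ
  f : ℂ → ℂ

/-- The analytic conductor `C = N ∏ j, (1 + |mu j|)`. -/
noncomputable def Datum.C {m : ℕ} (D : Datum m) : ℝ := D.N * ∏ j, (1 + ‖D.mu j‖)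

/-- The analytic conductor at height `t`, `Q = N ∏ j, (1 + |mu j - i t|)`. -/
noncomputable def Datum.Q {m : ℕ} (D : Datum m) (t : ℝ) : ℝ :=
  D.N * ∏ j, (1 + ‖D.mu j - t * Complex.I‖)

/-- The classical properties: `N ≥ 1`, `Re (mu j) < 1/2`, `f` is entire, of finite order in the strip
`-1/4 ≤ Re s ≤ 5/4`, and satisfies the functional equation `Λ(s) = root N^(1/2-s) conj (Λ(1 - conj s))`,
`Λ(s) = f(s) ∏ j, Γ_ℝ (s - mu j)`, with `|root| = 1` (divided by the gamma factors of both sides). -/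
structure Datum.Ok {m : ℕ} (D : Datum m) : Prop where
  N_pos : 0 < D.N
  mu_re : ∀ j, (D.mu j).re < 1 / 2
  entire : Differentiable ℂ D.f
  order : ∃ A : ℝ, ∀ s : ℂ, -1 / 4 ≤ s.re → s.re ≤ 5 / 4 →
    ‖D.f s‖ ≤ Real.exp (A * (1 + |s.im|) ^ A)
  fe : ∃ root : ℂ, ‖root‖ = 1 ∧ ∀ s : ℂ,
    D.f s * ∏ j, (Complex.Gammaℝ (1 - s - (starRingEnd ℂ) (D.mu j)))⁻¹ =
      root * (D.N : ℂ) ^ (1 / 2 - s) * (starRingEnd ℂ) (D.f (1 - (starRingEnd ℂ) s)) *
        ∏ j, (Complex.Gammaℝ (s - D.mu j))⁻¹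

/-- Molteni's bound to the right of the critical strip, uniform in the family. -/
def Molteni {ι : Type} {m : ℕ} (D : ι → Datum m) : Prop := ∀ ε : ℝ, 0 < ε → ∃ B : ℝ, ∀ (i : ι) (s : ℂ),
  1 + ε ≤ s.re → ‖(D i).f s‖ ≤ B * (D i).C ^ ε

variable {ι : Type}

/-- Large values produce plateaus, uniformly in the family `L i` with conductors `X i T` and `Q i T` at height
`T`: near `1/2 + iT` there is an interval of length `2π / (log Q - 4 log |L(1/2 + iT)| + ε log X)` of the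
critical line where `|L|` is at least `X^(-ε) |L(1/2 + iT)|`. -/
def Plateaus (L : ι → ℂ → ℂ) (X Q : ι → ℝ → ℝ) : Prop := ∀ ε : ℝ, 0 < ε → ∃ W X₀ : ℝ,
  ∀ (i : ι) (T : ℝ), X₀ ≤ X i T → 1 ≤ ‖L i (1 / 2 + T * Complex.I)‖ →
    0 < Real.log (Q i T) - 4 * Real.log ‖L i (1 / 2 + T * Complex.I)‖ + ε * Real.log (X i T) ∧
    ∃ T₀ : ℝ, |T₀ - T| ≤ W ∧ ∀ t : ℝ,
      |t - T₀| ≤ π / (Real.log (Q i T) - 4 * Real.log ‖L i (1 / 2 + T * Complex.I)‖ +
        ε * Real.log (X i T)) →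
      X i T ^ (-ε) * ‖L i (1 / 2 + T * Complex.I)‖ ≤ ‖L i (1 / 2 + t * Complex.I)‖

/-- For every `ε > 0`, if `X` is large, every interval of length `2πθ / log Q` of the critical line contains a
point at which `|L| ≤ X^(κ + ε)`. -/
def Sampled (L : ι → ℂ → ℂ) (X Q : ι → ℝ → ℝ) (θ κ : ℝ) : Prop := ∀ ε : ℝ, 0 < ε → ∃ X₀ : ℝ,
  ∀ (i : ι) (T : ℝ), X₀ ≤ X i T → ∃ t : ℝ, |t - T| ≤ π * θ / Real.log (Q i T) ∧
    ‖L i (1 / 2 + t * Complex.I)‖ ≤ X i T ^ (κ + ε)

/-- `|L i (1/2 + iT)| = O(X^(κ + ε))`, uniformly in the family. -/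
def Exponent (L : ι → ℂ → ℂ) (X : ι → ℝ → ℝ) (κ : ℝ) : Prop :=
  ∀ ε : ℝ, 0 < ε → ∃ B : ℝ, ∀ (i : ι) (T : ℝ), ‖L i (1 / 2 + T * Complex.I)‖ ≤ B * X i T ^ (κ + ε)

/-- The conclusion for a family. -/
def Conclusion (L : ι → ℂ → ℂ) (X Q : ι → ℝ → ℝ) : Prop :=
  Plateaus L X Q ∧ ∀ θ κ : ℝ, 0 < θ → 0 ≤ κ →
    (Sampled L X Q θ κ → ∀ ε : ℝ, 0 < ε → ∃ B : ℝ, ∀ (i : ι) (T : ℝ),
      ‖L i (1 / 2 + T * Complex.I)‖ ≤ B * X i T ^ ε * max (X i T ^ κ) (Q i T ^ ((1 - 1 / θ) / 4))) ∧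
    (θ ≤ 1 → (Exponent L X κ ↔ Sampled L X Q θ κ))

section proofs

open Pool.Agent.H983R4.GL H855R2.SF W587.PL

theorem conclusion_of {L : ι → ℂ → ℂ} {X Q : ι → ℝ → ℝ} (H : Fam2 L X Q) : Conclusion L X Q := by
  refine ⟨fun ε hε => ?_, fun θ κ hθ hκ => ⟨fun h ε hε => H.sampling hθ hκ h hε,
    fun hθ1 => H.sampled_iff hθ hθ1 hκ⟩⟩
  obtain ⟨W, X₀, _, h⟩ := H.plateaus hε
  exact ⟨W, X₀, h⟩

theorem Datum.C_one {m : ℕ} {D : Datum m} (h : 0 < D.N) : 1 ≤ D.C := by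
  have := cond_one_le h D.mu 0
  unfold Datum.C
  simpa using this

theorem Datum.Q_le {m : ℕ} {D : Datum m} (t : ℝ) : D.Q t ≤ (1 + |t|) ^ (m : ℝ) * D.C := by
  have h2 := cond_shift D.N D.mu 0 t
  have e1 : D.N * ∏ j, (1 + ‖D.mu j - ((0 : ℝ) : ℂ) * Complex.I‖) = D.C := by
    unfold Datum.C; simp
  rw [e1, zero_add] at h2
  exact h2

theorem Datum.Q_le' {m : ℕ} {D : Datum m} (h : 0 < D.N) (t : ℝ) :
    D.Q t ≤ ((1 + |t|) * D.C) ^ (m + 1 : ℝ) := by
  have h1 := Datum.C_one h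
  have ht : 1 ≤ 1 + |t| := by linarith [abs_nonneg t]
  refine (Datum.Q_le t).trans ?_
  rw [Real.mul_rpow (by positivity) (by linarith)]
  refine mul_le_mul ?_ ?_ (by linarith) (by positivity)
  · exact Real.rpow_le_rpow_of_exponent_le ht (by linarith)
  · conv_lhs => rw [← Real.rpow_one D.C]
    exact Real.rpow_le_rpow_of_exponent_le h1 (by
      have : (0 : ℝ) ≤ m := Nat.cast_nonneg _
      linarith)

theorem X_shift {m : ℕ} {D : Datum m} (h : 0 < D.N) (t u : ℝ) :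
    (1 + |t + u|) * D.C ≤ (1 + |u|) * ((1 + |t|) * D.C) := by
  have h1 := Datum.C_one h
  have h2 : 1 + |t + u| ≤ (1 + |u|) * (1 + |t|) := by
    have := abs_add_le t u
    nlinarith [abs_nonneg t, abs_nonneg u, mul_nonneg (abs_nonneg t) (abs_nonneg u)]
  calc (1 + |t + u|) * D.C ≤ ((1 + |u|) * (1 + |t|)) * D.C :=
        mul_le_mul_of_nonneg_right h2 (by linarith)
    _ = _ := by ring

theorem right_gl {m : ℕ} {D : ι → Datum m} (hD : ∀ i, (D i).Ok) (hM : Molteni D) :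
    ∀ δ : ℝ, 0 < δ → ∃ B : ℝ, ∀ i (s : ℂ), 1 + δ ≤ s.re →
      ‖(D i).f s‖ ≤ B * ((1 + |s.im|) * (D i).C) ^ δ := by
  intro δ hδ
  obtain ⟨B, hB⟩ := hM δ hδ
  refine ⟨|B|, fun i s hs => ?_⟩
  have h1 := Datum.C_one (hD i).N_pos
  refine (hB i s hs).trans ?_
  have h2 : (D i).C ≤ (1 + |s.im|) * (D i).C := by
    nlinarith [abs_nonneg s.im]
  calc B * (D i).C ^ δ ≤ |B| * (D i).C ^ δ :=
        mul_le_mul_of_nonneg_right (le_abs_self B) (Real.rpow_nonneg (by linarith) _)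
    _ ≤ _ := mul_le_mul_of_nonneg_left (Real.rpow_le_rpow (by linarith) h2 hδ.le) (abs_nonneg B)

theorem refl_gl {m : ℕ} {D : Datum m} (hD : D.Ok) {x t : ℝ} (hx0 : 0 ≤ x) (hx1 : x ≤ 3 / 4) :
    ‖D.f ⟨1 / 2 - x, t⟩‖ ≤ 16 ^ m * D.Q t ^ x * ‖D.f ⟨1 / 2 + x, t⟩‖ := by
  obtain ⟨root, hroot, hfe⟩ := hD.fe
  exact refl_of_fe hD.N_pos D.mu hD.mu_re hroot hfe hx0 hx1

theorem afam_gl {m : ℕ} {D : ι → Datum m} (hD : ∀ i, (D i).Ok) (hM : Molteni D) :
    AFam (m + 1 : ℝ) (fun i => (D i).f) (fun i t => ((1 + |t|) * (D i).C) ^ (m + 1 : ℝ)) where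
  m0 := by positivity
  Q1 := by
    intro i t
    refine Real.one_le_rpow ?_ (by positivity)
    have h1 := Datum.C_one (hD i).N_pos
    nlinarith [abs_nonneg t]
  Qs := by
    intro i t u
    have h1 := Datum.C_one (hD i).N_pos
    rw [← Real.mul_rpow (by positivity) (by positivity)]
    exact Real.rpow_le_rpow (by positivity) (X_shift (hD i).N_pos t u) (by positivity)
  diff := fun i => (hD i).entire
  order := fun i => (hD i).order
  right := by
    intro δ hδ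
    obtain ⟨B, hB⟩ := right_gl hD hM δ hδ
    refine ⟨|B|, fun i s hs => ?_⟩
    have h1 := Datum.C_one (hD i).N_pos
    have h0 : 1 ≤ (1 + |s.im|) * (D i).C := by nlinarith [abs_nonneg s.im]
    refine (hB i s hs).trans ?_
    have h3 : (1 + |s.im|) * (D i).C ≤ ((1 + |s.im|) * (D i).C) ^ (m + 1 : ℝ) := by
      conv_lhs => rw [← Real.rpow_one ((1 + |s.im|) * (D i).C)]
      refine Real.rpow_le_rpow_of_exponent_le h0 ?_
      have : (0 : ℝ) ≤ m := Nat.cast_nonneg _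
      linarith
    calc B * ((1 + |s.im|) * (D i).C) ^ δ ≤ |B| * ((1 + |s.im|) * (D i).C) ^ δ :=
          mul_le_mul_of_nonneg_right (le_abs_self B) (Real.rpow_nonneg (by linarith) _)
      _ ≤ _ := mul_le_mul_of_nonneg_left (Real.rpow_le_rpow (by linarith) h3 hδ.le) (abs_nonneg B)
  refl := by
    refine ⟨16 ^ m, by positivity, fun i x t hx0 hx1 => ?_⟩
    refine (refl_gl (hD i) (t := t) hx0 hx1).trans ?_
    refine mul_le_mul_of_nonneg_right ?_ (norm_nonneg _)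
    refine mul_le_mul_of_nonneg_left ?_ (by positivity)
    have h1 := cond_one_le (hD i).N_pos (D i).mu t
    exact Real.rpow_le_rpow (by unfold Datum.Q; linarith) (Datum.Q_le' (hD i).N_pos t) hx0

theorem fam2_gl {m : ℕ} {D : ι → Datum m} (hD : ∀ i, (D i).Ok) (hM : Molteni D) :
    Fam2 (fun i => (D i).f) (fun i t => (1 + |t|) * (D i).C) (fun i t => (D i).Q t) where
  X1 := by
    intro i t
    have h1 := Datum.C_one (hD i).N_pos
    nlinarith [abs_nonneg t]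
  Q1 := fun i t => cond_one_le (hD i).N_pos (D i).mu t
  Xs := ⟨1, zero_le_one, fun i t u => by rw [Real.rpow_one]; exact X_shift (hD i).N_pos t u⟩
  Qs := ⟨m, Nat.cast_nonneg _, fun i t u => cond_shift (D i).N (D i).mu t u⟩
  QX := ⟨m + 1, by positivity, fun i t => Datum.Q_le' (hD i).N_pos t⟩
  diff := fun i => (hD i).entire
  right := right_gl hD hM
  refl := ⟨16 ^ m, by positivity, fun i x t hx0 hx1 => refl_gl (hD i) hx0 hx1⟩
  crude := by
    obtain ⟨C, hC, h⟩ := crude (afam_gl hD hM)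
    exact ⟨C, m + 1, by linarith, by positivity, h⟩

theorem fam2_of_afam {m : ℝ} {L : ι → ℂ → ℂ} {Q : ι → ℝ → ℝ} (H : AFam m L Q) : Fam2 L Q Q where
  X1 := H.Q1
  Q1 := H.Q1
  Xs := ⟨m, H.m0, H.Qs⟩
  Qs := ⟨m, H.m0, H.Qs⟩
  QX := ⟨1, zero_le_one, fun i t => by rw [Real.rpow_one]⟩
  diff := H.diff
  right := H.right
  refl := H.refl
  crude := by
    obtain ⟨C, hC, h⟩ := crude H
    exact ⟨C, 1, by linarith, zero_le_one, fun i s hs => by rw [Real.rpow_one]; exact h i s hs⟩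

theorem Fam2.comp {ι' : Type} {L : ι → ℂ → ℂ} {X Q : ι → ℝ → ℝ} (H : Fam2 L X Q) (g : ι' → ι) :
    Fam2 (fun i => L (g i)) (fun i => X (g i)) (fun i => Q (g i)) where
  X1 := fun i => H.X1 (g i)
  Q1 := fun i => H.Q1 (g i)
  Xs := by obtain ⟨m, hm, h⟩ := H.Xs; exact ⟨m, hm, fun i => h (g i)⟩
  Qs := by obtain ⟨m, hm, h⟩ := H.Qs; exact ⟨m, hm, fun i => h (g i)⟩
  QX := by obtain ⟨m, hm, h⟩ := H.QX; exact ⟨m, hm, fun i => h (g i)⟩
  diff := fun i => H.diff (g i)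
  right := by intro δ hδ; obtain ⟨B, h⟩ := H.right δ hδ; exact ⟨B, fun i => h (g i)⟩
  refl := by obtain ⟨m, hm, h⟩ := H.refl; exact ⟨m, hm, fun i => h (g i)⟩
  crude := by obtain ⟨C, B, hC, hB, h⟩ := H.crude; exact ⟨C, B, hC, hB, fun i => h (g i)⟩

/-- the extremal functions -/
noncomputable def exF (N : ℕ) (κ : ℝ) (s : ℂ) : ℂ :=
  (N : ℂ) ^ ((κ : ℂ) - 2 * κ * (s - 1 / 2)) + (N : ℂ) ^ ((κ : ℂ) - (1 - 2 * κ) * (s - 1 / 2))

theorem exF_diff {N : ℕ} (hN : 0 < N) (κ : ℝ) : Differentiable ℂ (exF N κ) := by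
  have h0 : (N : ℂ) ≠ 0 := by exact_mod_cast hN.ne'
  unfold exF
  refine Differentiable.add ?_ ?_
  · exact Differentiable.const_cpow (by fun_prop) (Or.inl h0)
  · exact Differentiable.const_cpow (by fun_prop) (Or.inl h0)

theorem exF_norm {N : ℕ} (hN : 0 < N) (κ : ℝ) (s : ℂ) : ‖exF N κ s‖ ≤
    (N : ℝ) ^ (κ - 2 * κ * (s.re - 1 / 2)) + (N : ℝ) ^ (κ - (1 - 2 * κ) * (s.re - 1 / 2)) := by
  unfold exF
  refine (norm_add_le _ _).trans (le_of_eq ?_)
  rw [Complex.norm_natCast_cpow_of_pos hN, Complex.norm_natCast_cpow_of_pos hN]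
  congr 2 <;> simp

theorem conj_natpow {N : ℕ} (w : ℂ) : (starRingEnd ℂ) ((N : ℂ) ^ w) = (N : ℂ) ^ ((starRingEnd ℂ) w) := by
  have h := Complex.cpow_conj (N : ℂ) w (by
    rw [Complex.natCast_arg]
    exact Real.pi_pos.ne)
  rw [h, Complex.conj_natCast]

theorem exF_fe {N : ℕ} (hN : 0 < N) (κ : ℝ) (s : ℂ) :
    exF N κ s = (N : ℂ) ^ (1 / 2 - s) * (starRingEnd ℂ) (exF N κ (1 - (starRingEnd ℂ) s)) := by
  have h0 : (N : ℂ) ≠ 0 := by exact_mod_cast hN.ne'
  unfold exF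
  rw [map_add, conj_natpow, conj_natpow, mul_add, ← Complex.cpow_add _ _ h0, ← Complex.cpow_add _ _ h0,
    add_comm]
  congr 2
  · simp only [map_sub, map_mul, map_div₀, map_one, Complex.conj_ofReal, Complex.conj_conj, map_ofNat]
    ring
  · simp only [map_sub, map_mul, map_div₀, map_one, Complex.conj_ofReal, Complex.conj_conj, map_ofNat]
    ring

theorem exF_half {N : ℕ} (hN : 0 < N) (κ : ℝ) : ‖exF N κ (1 / 2)‖ = 2 * (N : ℝ) ^ κ := by
  unfold exF
  rw [sub_self, mul_zero, mul_zero, sub_zero, ← two_mul, norm_mul, Complex.norm_natCast_cpow_of_pos hN,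
    Complex.ofReal_re]
  simp

theorem exF_line {N : ℕ} (hN : 0 < N) (κ t : ℝ) : ‖exF N κ (1 / 2 + t * Complex.I)‖ ≤ 2 * (N : ℝ) ^ κ := by
  have h := exF_norm hN κ (1 / 2 + t * Complex.I)
  have e : ((1 / 2 : ℂ) + t * Complex.I).re - 1 / 2 = 0 := by simp
  rw [e, mul_zero, mul_zero, sub_zero, ← two_mul] at h
  exact h

theorem exF_zero {N : ℕ} (hN : 1 < N) {κ : ℝ} (hκ : κ < 1 / 4) (k : ℤ) :
    exF N κ (1 / 2 + (((2 * k + 1) * π / ((1 - 4 * κ) * Real.log N) : ℝ) : ℂ) * Complex.I) = 0 := by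
  have h0 : (N : ℂ) ≠ 0 := by exact_mod_cast (by omega : N ≠ 0)
  have hl : 0 < Real.log N := Real.log_pos (by exact_mod_cast hN)
  have h4 : 0 < 1 - 4 * κ := by linarith
  set t : ℝ := (2 * k + 1) * π / ((1 - 4 * κ) * Real.log N) with ht
  have hlog : Complex.log (N : ℂ) = ((Real.log N : ℝ) : ℂ) := by
    rw [← Complex.natCast_log]
  unfold exF
  rw [add_sub_cancel_left, Complex.cpow_def_of_ne_zero h0, Complex.cpow_def_of_ne_zero h0, hlog]
  have e : ((Real.log N : ℝ) : ℂ) * ((κ : ℂ) - (1 - 2 * κ) * (t * Complex.I)) =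
      ((Real.log N : ℝ) : ℂ) * ((κ : ℂ) - 2 * κ * (t * Complex.I)) +
        (-(k : ℤ) * (2 * π * Complex.I) + -(π * Complex.I)) := by
    have h1 : (1 - 4 * κ) * Real.log N * t = (2 * k + 1) * π := by
      rw [ht]; field_simp
    have h2 : (((1 - 4 * κ) * Real.log N * t : ℝ) : ℂ) = (((2 * k + 1) * π : ℝ) : ℂ) := by rw [h1]
    push_cast at h2
    rw [hlog] at h2
    linear_combination (-Complex.I) * h2
  rw [e, Complex.exp_add, Complex.exp_add]
  have h5 : Complex.exp (-(k : ℤ) * (2 * π * Complex.I)) = 1 := by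
    rw [Complex.exp_eq_one_iff]
    exact ⟨-k, by push_cast; ring⟩
  rw [h5, Complex.exp_neg, Complex.exp_pi_mul_I]
  norm_num

/-- the extremal data -/
noncomputable def exD (κ : ℝ) (n : ℕ) : Datum 0 where
  N := n + 2
  mu := fun _ => 0
  f := exF (n + 2) κ

theorem exD_ok {κ : ℝ} (h0 : 0 ≤ κ) (h1 : κ < 1 / 4) (n : ℕ) : (exD κ n).Ok where
  N_pos := by show 0 < n + 2; omega
  mu_re := fun j => j.elim0
  entire := exF_diff (by omega) κ
  order := by
    set N : ℕ := n + 2 with hN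
    have hN1 : (1 : ℝ) ≤ N := by
      rw [hN]; push_cast; linarith [(Nat.cast_nonneg n : (0 : ℝ) ≤ n)]
    refine ⟨2 * N, fun s hs hs2 => ?_⟩
    show ‖exF N κ s‖ ≤ _
    have h2 := exF_norm (by omega : 0 < N) κ s
    have h3 : (N : ℝ) ^ (κ - 2 * κ * (s.re - 1 / 2)) ≤ N := by
      calc (N : ℝ) ^ (κ - 2 * κ * (s.re - 1 / 2)) ≤ (N : ℝ) ^ (1 : ℝ) :=
            Real.rpow_le_rpow_of_exponent_le hN1 (by nlinarith)
        _ = N := Real.rpow_one _
    have h4 : (N : ℝ) ^ (κ - (1 - 2 * κ) * (s.re - 1 / 2)) ≤ N := by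
      calc (N : ℝ) ^ (κ - (1 - 2 * κ) * (s.re - 1 / 2)) ≤ (N : ℝ) ^ (1 : ℝ) :=
            Real.rpow_le_rpow_of_exponent_le hN1 (by nlinarith)
        _ = N := Real.rpow_one _
    have h5 : 2 * (N : ℝ) ≤ Real.exp (2 * N) := by linarith [Real.add_one_le_exp (2 * (N : ℝ))]
    have h6 : 1 ≤ (1 + |s.im|) ^ (2 * (N : ℝ)) :=
      Real.one_le_rpow (by linarith [abs_nonneg s.im]) (by positivity)
    calc ‖exF N κ s‖ ≤ 2 * N := by linarith
      _ ≤ Real.exp (2 * N) := h5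
      _ ≤ _ := Real.exp_le_exp.2 (le_mul_of_one_le_right (by positivity) h6)
  fe := by
    refine ⟨1, norm_one, fun s => ?_⟩
    simp only [Finset.univ_eq_empty, Finset.prod_empty, mul_one, one_mul]
    exact exF_fe (N := n + 2) (by omega) κ s

theorem exD_molteni {κ : ℝ} (h0 : 0 ≤ κ) (h1 : κ < 1 / 4) : Molteni (exD κ) := by
  intro ε hε
  refine ⟨2, fun n s hs => ?_⟩
  set N : ℕ := n + 2 with hN
  have hN1 : (1 : ℝ) ≤ N := by
    rw [hN]; push_cast; linarith [(Nat.cast_nonneg n : (0 : ℝ) ≤ n)]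
  have hC : (exD κ n).C = N := by
    unfold Datum.C exD
    simp [hN]
  rw [hC]
  show ‖exF N κ s‖ ≤ _
  have h2 := exF_norm (by omega : 0 < N) κ s
  have h3 : (N : ℝ) ^ (κ - 2 * κ * (s.re - 1 / 2)) ≤ 1 :=
    Real.rpow_le_one_of_one_le_of_nonpos hN1 (by nlinarith)
  have h4 : (N : ℝ) ^ (κ - (1 - 2 * κ) * (s.re - 1 / 2)) ≤ 1 :=
    Real.rpow_le_one_of_one_le_of_nonpos hN1 (by nlinarith)
  have h5 : 1 ≤ (N : ℝ) ^ ε := Real.one_le_rpow hN1 hε.le
  linarith

end proofs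

theorem result :
    (∀ (ι : Type) (m : ℕ) (D : ι → Datum m), (∀ i, (D i).Ok) → Molteni D →
      Conclusion (fun i => (D i).f) (fun i T => (1 + |T|) * (D i).C) (fun i T => (D i).Q T)) ∧
    (∀ (ι : Type) (q : ι → ℕ) [∀ i, NeZero (q i)] (χ : (i : ι) → DirichletCharacter ℂ (q i)),
      (∀ i, 1 < q i ∧ (χ i).IsPrimitive) →
      Conclusion (fun i => DirichletCharacter.LFunction (χ i)) (fun i T => (q i : ℝ) * (1 + |T|))
        (fun i T => (q i : ℝ) * (1 + |T|))) ∧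
    (∀ κ : ℝ, 0 ≤ κ → κ < 1 / 4 → ∃ D : ℕ → Datum 0, Molteni D ∧ ∀ n : ℕ, (D n).Ok ∧ (D n).N = n + 2 ∧
      ‖(D n).f (1 / 2)‖ = 2 * ((n + 2 : ℕ) : ℝ) ^ κ ∧
      (∀ t : ℝ, ‖(D n).f (1 / 2 + t * Complex.I)‖ ≤ 2 * ((n + 2 : ℕ) : ℝ) ^ κ) ∧
      ∀ k : ℤ, (D n).f (1 / 2 +
        (((2 * k + 1) * π / ((1 - 4 * κ) * Real.log ((n + 2 : ℕ) : ℝ)) : ℝ) : ℂ) * Complex.I) = 0) := by
  refine ⟨fun ι m D hD hM => conclusion_of (fam2_gl hD hM), fun ι q _ χ h => conclusion_of ?_,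
    fun κ h0 h1 => ⟨exD κ, exD_molteni h0 h1, fun n => ⟨exD_ok h0 h1 n, rfl, ?_, ?_, ?_⟩⟩⟩
  · exact Fam2.comp (fam2_of_afam (H855R2.SF.dir_afam (fun _ _ => True)))
      (fun i => (⟨q i, (h i).1, χ i, (h i).2, trivial⟩ : H855R2.SF.DC (fun _ _ => True)))
  · exact exF_half (by omega) κ
  · exact exF_line (by omega) κ
  · exact exF_zero (by omega) h1

end Pool.Agent.Results.MP_52e316_nt.LargeValuePlateaus
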