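import Mathlib
import Pool.Agent.W188.GLR.G8

/-!
# The Grand Lindelöf Hypothesis for `GL(m)` is decided by the values on one ray, for each L-function

Let `π` run through (a family of) cuspidal representations of `GL(m)`, normalised as in the problem, and let
`X = (1 + |T|) C_π`.

* (directions) For every `ε > 0` there are `K`, `X₀` with the following property.  If `X ≥ X₀` and
  `|L(1/2 + iT, π)| ≥ X^ε`, then for EVERY direction `u`, `|u| = 1`, there is a real `v` with
  `|v - T| ≤ K log (3 + log X)` at which `L(1/2 + iv, π)` is a positive multiple of `u` and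
  `|L(1/2 + iv, π)| ≥ X^(-ε) |L(1/2 + iT, π)|`: the large values of an L-function at a height are taken, up to
  factors `X^ε`, with every argument, within `O(log log X)` of this height.
* (points) For `κ ≥ 0` the bound `|L(1/2 + iT, π)| = O(X^(κ + ε))` holds at every point of a set `S` of pairs
  `(π, T)` (for example at the central points `T = 0`), as soon as it holds, for `(π, T)` in `S`, at the
  points within `O(log log X)` of `T` at which the value lies on one ray from `0`, which may depend on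
  `(π, T)` in any way.
* (one ray) For any choice of one ray from `0` for each `π`, the bound `O(X^(κ + ε))` at all points of the
  critical lines is equivalent to this bound at the points where `L(1/2 + iv, π)` lies on the ray of `π`;
  for `κ = 0` this is the Grand Lindelöf Hypothesis for the family.

The theorem uses only classical facts: the functional equation, entire of finite order,
`Re μ_j ≤ 1/2 - δ` for some `δ > 0` (for `GL(m)` with `δ = 1/(m² + 1)` by Luo, Rudnick and Sarnak; for one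
representation, or finitely many, it is `Re μ_j < 1/2`), `∑ Im μ_j = 0` (the normalisation of the problem) and
Molteni's bound.  For primitive Dirichlet characters of modulus `q > 1` (`m = 1`) all of them are proved and
the result holds with `X = q (1 + |T|)`.
-/

set_option autoImplicit false

open Set

namespace Pool.Agent.Results.MP_52e316_nt.RayValuesGLm

/-- The data of a standard L-function of `GL(m)`: the conductor `N`, the archimedean parameters `mu j` (the
factor at infinity is `∏ j, Γ_ℝ (s - mu j)`) and the L-function `f` (continued to the complex plane). -/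
structure Datum (m : ℕ) where
  N : ℕ
  mu : Fin m → ℂ
  f : ℂ → ℂ

/-- The analytic conductor `C = N ∏ j, (1 + |mu j|)`. -/
noncomputable def Datum.C {m : ℕ} (D : Datum m) : ℝ := D.N * ∏ j, (1 + ‖D.mu j‖)

/-- The classical properties: `N ≥ 1`, `Re (mu j) ≤ 1/2 - δ`, `∑ j, Im (mu j) = 0`, `f` is entire, of finite
order in the strip `-1/4 ≤ Re s ≤ 5/4`, and satisfies the functional equation
`Λ(s) = root N^(1/2-s) conj (Λ(1 - conj s))`, `Λ(s) = f(s) ∏ j, Γ_ℝ (s - mu j)`, with `|root| = 1` (divided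
by the gamma factors of both sides). -/
structure Datum.Ok {m : ℕ} (D : Datum m) (δ : ℝ) : Prop where
  N_pos : 0 < D.N
  gap : ∀ j, (D.mu j).re ≤ 1 / 2 - δ
  im_sum : ∑ j, (D.mu j).im = 0
  entire : Differentiable ℂ D.f
  order : ∃ A : ℝ, ∀ s : ℂ, -1 / 4 ≤ s.re → s.re ≤ 5 / 4 →
    ‖D.f s‖ ≤ Real.exp (A * (1 + |s.im|) ^ A)
  fe : ∃ root : ℂ, ‖root‖ = 1 ∧ ∀ s : ℂ,
    D.f s * ∏ j, (Complex.Gammaℝ (1 - s - (starRingEnd ℂ) (D.mu j)))⁻¹ =
      root * (D.N : ℂ) ^ (1 / 2 - s) * (starRingEnd ℂ) (D.f (1 - (starRingEnd ℂ) s)) *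
        ∏ j, (Complex.Gammaℝ (s - D.mu j))⁻¹

/-- Molteni's bound to the right of the critical strip, uniform in the family. -/
def Molteni {ι : Type} {m : ℕ} (D : ι → Datum m) : Prop := ∀ ε : ℝ, 0 < ε → ∃ B : ℝ, ∀ (i : ι) (s : ℂ),
  1 + ε ≤ s.re → ‖(D i).f s‖ ≤ B * (D i).C ^ ε

variable {ι : Type}

/-- Large values propagate to every direction, within `O(log log X)`. -/
def Directions (L : ι → ℂ → ℂ) (X : ι → ℝ → ℝ) : Prop := ∀ ε : ℝ, 0 < ε →
  ∃ K X₀ : ℝ, 0 < K ∧ 1 < X₀ ∧ ∀ (i : ι) (T : ℝ), X₀ ≤ X i T →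
    X i T ^ ε ≤ ‖L i (1 / 2 + T * Complex.I)‖ → ∀ u : ℂ, ‖u‖ = 1 →
      ∃ v r : ℝ, |v - T| ≤ K * Real.log (3 + Real.log (X i T)) ∧ L i (1 / 2 + v * Complex.I) = r * u ∧
        ‖L i (1 / 2 + T * Complex.I)‖ ≤ X i T ^ ε * r

/-- `|L i (1/2 + iT)| = O(X^(κ + ε))` at all points `(i, T)` of `S`. -/
def Exponent (L : ι → ℂ → ℂ) (X : ι → ℝ → ℝ) (S : Set (ι × ℝ)) (κ : ℝ) : Prop :=
  ∀ ε : ℝ, 0 < ε → ∃ B : ℝ, ∀ (i : ι) (T : ℝ), (i, T) ∈ S →
    ‖L i (1 / 2 + T * Complex.I)‖ ≤ B * X i T ^ (κ + ε)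

/-- `|L i (1/2 + iv)| = O(X^(κ + ε))`, `X = X i T`, for `(i, T)` in `S` and `|v - T| ≤ K log (3 + log X)` (for
each `K`) with `L i (1/2 + iv)` on the ray from `0` through `u i T`. -/
def LocalRayExponent (L : ι → ℂ → ℂ) (X : ι → ℝ → ℝ) (S : Set (ι × ℝ)) (u : ι → ℝ → ℂ) (κ : ℝ) : Prop :=
  ∀ ε : ℝ, 0 < ε → ∀ K : ℝ, ∃ B : ℝ, ∀ (i : ι) (T : ℝ), (i, T) ∈ S → ∀ v r : ℝ,
    |v - T| ≤ K * Real.log (3 + Real.log (X i T)) → L i (1 / 2 + v * Complex.I) = r * u i T →
      r ≤ B * X i T ^ (κ + ε)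

/-- `|L i (1/2 + iv)| = O(X^(κ + ε))`, `X = X i v`, for all `i` and all real `v` with `L i (1/2 + iv)` on the
ray from `0` through `u i`. -/
def RayExponent (L : ι → ℂ → ℂ) (X : ι → ℝ → ℝ) (u : ι → ℂ) (κ : ℝ) : Prop :=
  ∀ ε : ℝ, 0 < ε → ∃ B : ℝ, ∀ (i : ι) (v r : ℝ), L i (1 / 2 + v * Complex.I) = r * u i →
    r ≤ B * X i v ^ (κ + ε)

/-- The conclusion for a family. -/
def Conclusion (L : ι → ℂ → ℂ) (X : ι → ℝ → ℝ) : Prop :=
  Directions L X ∧ ∀ κ : ℝ, 0 ≤ κ →
    (∀ (S : Set (ι × ℝ)) (u : ι → ℝ → ℂ), (∀ i T, ‖u i T‖ = 1) →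
      LocalRayExponent L X S u κ → Exponent L X S κ) ∧
    (∀ u : ι → ℂ, (∀ i, ‖u i‖ = 1) → (Exponent L X univ κ ↔ RayExponent L X u κ))

section proofs

open Pool.Agent.W188.GLR

theorem conclusion_of {m : ℕ} {N : ι → ℕ} {mu : ι → Fin m → ℂ} {L : ι → ℂ → ℂ} {X : ι → ℝ → ℝ} {δ : ℝ}
    (H : GLData m N mu L X δ) : Conclusion L X := by
  refine ⟨fun ε hε => H.directions hε, fun κ hκ => ⟨fun S u hu h => H.points hκ S u hu h,
    fun u hu => ?_⟩⟩
  rw [RayExponent, ← H.ray_iff hκ u hu]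
  exact ⟨fun h ε hε => (h ε hε).imp fun B hB i T => hB i T (mem_univ _),
    fun h ε hε => (h ε hε).imp fun B hB i T _ => hB i T⟩

end proofs

theorem result :
    (∀ (ι : Type) (m : ℕ) (δ : ℝ) (D : ι → Datum m), 1 ≤ m → 0 < δ → (∀ i, (D i).Ok δ) → Molteni D →
      Conclusion (fun i => (D i).f) (fun i T => (1 + |T|) * (D i).C)) ∧
    (∀ (ι : Type) (q : ι → ℕ) [∀ i, NeZero (q i)] (χ : (i : ι) → DirichletCharacter ℂ (q i)),
      (∀ i, 1 < q i ∧ (χ i).IsPrimitive) →
      Conclusion (fun i => DirichletCharacter.LFunction (χ i)) (fun i T => (q i : ℝ) * (1 + |T|))) :=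
  ⟨fun _ _ _ _ hm hδ hD hM => conclusion_of (Pool.Agent.W188.GLR.GLData.of_gl hm hδ
      (fun i => (hD i).N_pos) (fun i => (hD i).gap) (fun i => (hD i).im_sum)
      (fun i => (hD i).entire) (fun i => (hD i).order) (fun i => (hD i).fe) hM),
    fun _ _ _ _ h => conclusion_of (Pool.Agent.W188.GLR.GLData.of_dir h)⟩

end Pool.Agent.Results.MP_52e316_nt.RayValuesGLm
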